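import Pool.Agent.Helper60.L1Full.Stmts
import Pool.Agent.Helper2.DualL1.Decomp

/-! The dual of `C(K)`, `K` a closed subset of `{0,1}^I`, is an `ℓ¹`-sum of `L¹` spaces
(module CKB of the project L1F, MP_3844f5_an). -/

namespace DualL1

open Filter Topology MeasureTheory
open scoped ENNReal Classical

section CKB

variable {𝕜 : Type*} [RCLike 𝕜] {I : Type*}

/-! ### Continuous functions on `{0,1}^I` are measurable for the product `σ`-algebra -/

/-- projection to the coordinates in `J` -/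
noncomputable def CKB_ext (J : Finset I) (w : J → Bool) : I → Bool :=
  fun i => if h : i ∈ J then w ⟨i, h⟩ else false

lemma CKB_ext_apply (J : Finset I) (x : I → Bool) (i : I) (hi : i ∈ J) :
    CKB_ext J (fun j : J => x j) i = x i := by
  simp [CKB_ext, hi]

lemma CKB_unif {E : Type*} [PseudoMetricSpace E] (F : C(I → Bool, E)) {ε : ℝ} (hε : 0 < ε) :
    ∃ J : Finset I, ∀ x y : I → Bool, (∀ i ∈ J, x i = y i) → dist (F x) (F y) < ε := by
  have h1 : ∀ x : I → Bool, ∃ J : Finset I, ∀ y : I → Bool, (∀ i ∈ J, y i = x i) →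
      dist (F y) (F x) < ε / 2 := by
    intro x
    have hopen : IsOpen (F ⁻¹' Metric.ball (F x) (ε / 2)) := Metric.isOpen_ball.preimage F.continuous
    obtain ⟨J, u, hu, hJ⟩ := isOpen_pi_iff.1 hopen x (by
      simp only [Set.mem_preimage]
      exact Metric.mem_ball_self (by positivity))
    refine ⟨J, fun y hy => ?_⟩
    have : y ∈ F ⁻¹' Metric.ball (F x) (ε / 2) := hJ (fun i hi => by
      rw [hy i hi]
      exact (hu i hi).2)
    exact this
  choose J hJ using h1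
  have hopen : ∀ x : I → Bool, IsOpen {y : I → Bool | ∀ i ∈ J x, y i = x i} := by
    intro x
    have : {y : I → Bool | ∀ i ∈ J x, y i = x i} = ⋂ i ∈ J x, {y | y i = x i} := by
      ext y; simp
    rw [this]
    refine isOpen_biInter_finset (fun i _ => ?_)
    exact (isOpen_discrete ({x i} : Set Bool)).preimage
      (continuous_apply i : Continuous (fun y : I → Bool => y i))
  obtain ⟨t, ht⟩ := isCompact_univ.elim_finite_subcover
    (fun x : I → Bool => {y : I → Bool | ∀ i ∈ J x, y i = x i}) hopen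
    (fun x _ => Set.mem_iUnion.2 ⟨x, fun i _ => rfl⟩)
  refine ⟨t.biUnion J, fun x y hxy => ?_⟩
  obtain ⟨z, hz⟩ := Set.mem_iUnion.1 (ht (Set.mem_univ x))
  obtain ⟨hzt, hxz⟩ := Set.mem_iUnion.1 hz
  have h1 : dist (F x) (F z) < ε / 2 := hJ z x hxz
  have h2 : dist (F y) (F z) < ε / 2 := hJ z y (fun i hi => by
    rw [← hxy i (Finset.mem_biUnion.2 ⟨z, hzt, hi⟩)]
    exact hxz i hi)
  calc dist (F x) (F y) ≤ dist (F x) (F z) + dist (F y) (F z) := dist_triangle_right _ _ _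
    _ < ε := by linarith

lemma CKB_meas_fin {E : Type*} [TopologicalSpace E] (J : Finset I) (g : (J → Bool) → E) :
    StronglyMeasurable (fun x : I → Bool => g (fun j : J => x j)) := by
  have h1 : StronglyMeasurable g := StronglyMeasurable.of_discrete
  exact h1.comp_measurable (measurable_pi_lambda _ (fun j => measurable_pi_apply _))

lemma CKB_sm {E : Type*} [PseudoMetricSpace E] (F : C(I → Bool, E)) : StronglyMeasurable F := by
  choose J hJ using fun n : ℕ => CKB_unif F (ε := 1 / ((n : ℝ) + 1)) (by positivity)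
  refine stronglyMeasurable_of_tendsto (f := fun (n : ℕ) (x : I → Bool) =>
    F (CKB_ext (J n) (fun j : J n => x j))) atTop
    (fun n => CKB_meas_fin (J n) (fun w => F (CKB_ext (J n) w))) ?_
  rw [tendsto_pi_nhds]
  intro x
  rw [tendsto_iff_dist_tendsto_zero]
  refine squeeze_zero (fun _ => dist_nonneg) (fun n => (hJ n _ x (fun i hi =>
    CKB_ext_apply (J n) x i hi)).le) tendsto_one_div_add_atTop_nhds_zero_nat

lemma CKB_int {ρ : Measure (I → Bool)} [IsFiniteMeasure ρ] (F : C(I → Bool, 𝕜)) :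
    Integrable (F : (I → Bool) → 𝕜) ρ :=
  Integrable.of_bound (CKB_sm F).aestronglyMeasurable ‖F‖
    (Eventually.of_forall (fun x => F.norm_coe_le_norm x))

/-! ### Measures carried by `K` -/

lemma CKB_null {K : Set (I → Bool)} (hK : IsClosed K) {ρ : Measure (I → Bool)}
    (hρ : CarriedBy K ρ) (F : C(I → Bool, ℝ)) (hF : ∀ x ∈ K, F x ≤ 0) : ∀ᵐ x ∂ρ, F x ≤ 0 := by
  have h1 : ∀ n : ℕ, ρ {x | 1 / ((n : ℝ) + 1) ≤ F x} = 0 := by
    intro n
    have hpos : (0 : ℝ) < 1 / ((n : ℝ) + 1) := by positivity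
    obtain ⟨C, hC, hC1, hC2⟩ := exists_clopen_of_closed_subset_open
      (Z := {x | 1 / ((n : ℝ) + 1) ≤ F x}) (U := Kᶜ)
      (isClosed_le continuous_const F.continuous) hK.isOpen_compl (fun x hx hxK => by
        have h2 : 1 / ((n : ℝ) + 1) ≤ F x := hx
        linarith [hF x hxK])
    exact measure_mono_null hC1 (hρ C hC (Set.disjoint_left.2 (fun x hx hx' => hC2 hx hx')))
  have h2 : ρ (⋃ n : ℕ, {x | 1 / ((n : ℝ) + 1) ≤ F x}) = 0 := measure_iUnion_null h1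
  rw [ae_iff]
  refine measure_mono_null (fun x hx => ?_) h2
  have hx' : 0 < F x := not_le.1 hx
  obtain ⟨n, hn⟩ := exists_nat_one_div_lt hx'
  exact Set.mem_iUnion.2 ⟨n, hn.le⟩

lemma CKB_ae_le {K : Set (I → Bool)} (hK : IsClosed K) {ρ : Measure (I → Bool)}
    (hρ : CarriedBy K ρ) (F : C(I → Bool, 𝕜)) (a : ℝ) (hF : ∀ x ∈ K, ‖F x‖ ≤ a) :
    ∀ᵐ x ∂ρ, ‖F x‖ ≤ a := by
  have := CKB_null hK hρ ⟨fun x => ‖F x‖ - a, F.continuous.norm.sub continuous_const⟩
    (fun x hx => sub_nonpos.2 (hF x hx))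
  filter_upwards [this] with x hx
  exact sub_nonpos.1 hx

lemma CKB_ae_eq {K : Set (I → Bool)} (hK : IsClosed K) {ρ : Measure (I → Bool)}
    (hρ : CarriedBy K ρ) (F G : C(I → Bool, 𝕜)) (hF : ∀ x ∈ K, F x = G x) :
    ∀ᵐ x ∂ρ, F x = G x := by
  have := CKB_ae_le hK hρ (F - G) 0 (fun x hx => by
    rw [ContinuousMap.sub_apply, hF x hx, sub_self, norm_zero])
  filter_upwards [this] with x hx
  rw [ContinuousMap.sub_apply] at hx
  exact sub_eq_zero.1 (norm_le_zero_iff.1 hx)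

/-- an extension of a continuous function -/
lemma CKB_exists_ext {K : Set (I → Bool)} (hK : IsClosed K) (f : C(K, 𝕜)) :
    ∃ F : C(I → Bool, 𝕜), F.restrict K = f :=
  ContinuousMap.exists_restrict_eq hK f

/-! ### The embedding -/

lemma CKB_int_mul {ρ : Measure (I → Bool)} {h : (I → Bool) → 𝕜} (hh : Integrable h ρ)
    (f : C(I → Bool, 𝕜)) : Integrable (fun x => h x * f x) ρ :=
  hh.mul_bdd (CKB_sm f).aestronglyMeasurable
    (Eventually.of_forall (fun x => f.norm_coe_le_norm x))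

lemma CKB_norm_int_mul_le {K : Set (I → Bool)} (hK : IsClosed K) {ρ : Measure (I → Bool)}
    (hρ : CarriedBy K ρ) {h : (I → Bool) → 𝕜} (hh : Integrable h ρ) (f : C(I → Bool, 𝕜)) (a : ℝ)
    (hf : ∀ x ∈ K, ‖f x‖ ≤ a) :
    ‖∫ x, h x * f x ∂ρ‖ ≤ (∫ x, ‖h x‖ ∂ρ) * a := by
  refine (norm_integral_le_integral_norm _).trans ?_
  rw [← integral_mul_const]
  refine integral_mono_ae (CKB_int_mul hh f).norm (hh.norm.mul_const _) ?_
  filter_upwards [CKB_ae_le hK hρ f a hf] with x hx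
  simp only [norm_mul]
  exact mul_le_mul_of_nonneg_left hx (norm_nonneg _)

/-- the functional with a given density, for a given extension operator. -/
lemma CKB_exists_dens {K : Set (I → Bool)} [CompactSpace K] (hK : IsClosed K)
    (ρ : Measure (I → Bool)) (hρ : CarriedBy K ρ) :
    ∃ D : Lp 𝕜 1 ρ →L[𝕜] (C(K, 𝕜) →L[𝕜] 𝕜), (∀ h, ‖D h‖ ≤ ‖h‖) ∧
      ∀ (h : (I → Bool) → 𝕜), Integrable h ρ → ∀ F : C(I → Bool, 𝕜),
        D (tl ρ h) (F.restrict K) = ∫ x, h x * F x ∂ρ := by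
  choose E hE using fun f : C(K, 𝕜) => CKB_exists_ext hK f
  have hE' : ∀ (f : C(K, 𝕜)) (x : I → Bool) (hx : x ∈ K), E f x = f ⟨x, hx⟩ := by
    intro f x hx
    have := congrArg (fun g : C(K, 𝕜) => g ⟨x, hx⟩) (hE f)
    exact this
  have hEn : ∀ (f : C(K, 𝕜)), ∀ x ∈ K, ‖E f x‖ ≤ ‖f‖ := by
    intro f x hx
    rw [hE' f x hx]
    exact f.norm_coe_le_norm _
  let D : Lp 𝕜 1 ρ →L[𝕜] (C(K, 𝕜) →L[𝕜] 𝕜) := LinearMap.mkContinuous₂
    (LinearMap.mk₂ 𝕜 (fun (h : Lp 𝕜 1 ρ) (f : C(K, 𝕜)) => ∫ x, h x * E f x ∂ρ)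
    (fun h₁ h₂ f => by
      rw [← integral_add (CKB_int_mul (L1.integrable_coeFn h₁) _)
        (CKB_int_mul (L1.integrable_coeFn h₂) _)]
      refine integral_congr_ae ?_
      filter_upwards [Lp.coeFn_add h₁ h₂] with x hx
      rw [hx, Pi.add_apply, add_mul])
    (fun c h f => by
      rw [smul_eq_mul, ← integral_const_mul]
      refine integral_congr_ae ?_
      filter_upwards [Lp.coeFn_smul c h] with x hx
      rw [hx, Pi.smul_apply, smul_eq_mul, mul_assoc])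
    (fun h f₁ f₂ => by
      rw [← integral_add (CKB_int_mul (L1.integrable_coeFn h) _)
        (CKB_int_mul (L1.integrable_coeFn h) _)]
      refine integral_congr_ae ?_
      filter_upwards [CKB_ae_eq hK hρ (E (f₁ + f₂)) (E f₁ + E f₂) (fun x hx => by
        rw [ContinuousMap.add_apply, hE' _ x hx, hE' _ x hx, hE' _ x hx,
          ContinuousMap.add_apply])] with x hx
      rw [hx, ContinuousMap.add_apply, mul_add])
    (fun c h f => by
      rw [smul_eq_mul, ← integral_const_mul]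
      refine integral_congr_ae ?_
      filter_upwards [CKB_ae_eq hK hρ (E (c • f)) (c • E f) (fun x hx => by
        rw [ContinuousMap.smul_apply, hE' _ x hx, hE' _ x hx,
          ContinuousMap.smul_apply])] with x hx
      rw [hx, ContinuousMap.smul_apply, smul_eq_mul]
      ring)) 1 (fun h f => by
      rw [one_mul, LinearMap.mk₂_apply, L1.norm_eq_integral_norm]
      exact CKB_norm_int_mul_le hK hρ (L1.integrable_coeFn h) _ _ (hEn f))
  have hD : ∀ (h : Lp 𝕜 1 ρ) (f : C(K, 𝕜)), D h f = ∫ x, h x * E f x ∂ρ := fun h f => rfl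
  refine ⟨D, fun h => ?_, fun h hh F => ?_⟩
  · refine ContinuousLinearMap.opNorm_le_bound _ (norm_nonneg _) (fun f => ?_)
    rw [hD, L1.norm_eq_integral_norm]
    exact CKB_norm_int_mul_le hK hρ (L1.integrable_coeFn h) _ _ (hEn f)
  · rw [hD]
    refine integral_congr_ae ?_
    filter_upwards [coeFn_tl hh, CKB_ae_eq hK hρ (E (F.restrict K)) F (fun x hx => by
      rw [hE' _ x hx]; rfl)] with x hx hx'
    rw [hx, hx']

/-! ### Density of the continuous functions -/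

lemma CKB_cyl (J : Finset I) (T : Set (J → Bool)) :
    ∃ F : C(I → Bool, 𝕜), (F : (I → Bool) → 𝕜) = (cylinder J T).indicator (fun _ => 1) := by
  refine ⟨⟨(cylinder J T).indicator (fun _ => 1), ?_⟩, rfl⟩
  have h1 : Continuous (fun v : J → Bool => (T.indicator (fun _ => (1 : 𝕜)) v)) :=
    continuous_of_discreteTopology
  have h2 : Continuous (fun (x : I → Bool) (j : J) => x j) :=
    continuous_pi (fun j => continuous_apply (j : I))
  exact h1.comp h2

lemma CKB_dense (ρ : Measure (I → Bool)) [IsFiniteMeasure ρ] (h : Lp 𝕜 1 ρ) {ε : ℝ} (hε : 0 < ε) :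
    ∃ F : C(I → Bool, 𝕜), ‖h - tl ρ F‖ < ε := by
  let L : C(I → Bool, 𝕜) →ₗ[𝕜] Lp 𝕜 1 ρ :=
    { toFun := fun F => tl ρ F
      map_add' := fun F G => tl_add (CKB_int F) (CKB_int G)
      map_smul' := fun c F => tl_smul c (CKB_int F) }
  set M : Submodule 𝕜 (Lp 𝕜 1 ρ) := (LinearMap.range L).topologicalClosure with hM
  have htop : M = ⊤ := by
    refine eq_top_of_ind M (Submodule.isClosed_topologicalClosure _) (fun B hB hB' => ?_)
    rw [← SetLike.mem_coe, hM, Submodule.topologicalClosure_coe, Metric.mem_closure_iff]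
    intro δ hδ
    have hdense := Measure.MeasureDense.of_generateFrom_isSetAlgebra_finite ρ
      (isSetAlgebra_measurableCylinders (α := fun _ : I => Bool))
      generateFrom_measurableCylinders.symm
    obtain ⟨t, ht, ht'⟩ := hdense.approx B hB hB' δ hδ
    obtain ⟨J, T, hT, rfl⟩ := (mem_measurableCylinders t).1 ht
    obtain ⟨F, hF⟩ := CKB_cyl (𝕜 := 𝕜) J T
    have htm : MeasurableSet (cylinder J T : Set (I → Bool)) := hT.cylinder
    refine ⟨L F, ⟨F, rfl⟩, ?_⟩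
    show dist (ind ρ 𝕜 B) (tl ρ F) < δ
    have i1 : Integrable (B.indicator (fun _ => (1 : 𝕜))) ρ :=
      (integrable_const (1 : 𝕜)).indicator hB
    rw [ind_eq_tl hB hB', dist_eq_norm, ← tl_sub i1 (CKB_int F), norm_tl (i1.sub (CKB_int F))]
    have h1 : ∫ x, ‖(B.indicator (fun _ => (1 : 𝕜)) - (F : (I → Bool) → 𝕜)) x‖ ∂ρ
        = ρ.real (symmDiff B (cylinder J T)) := by
      rw [← integral_indicator_one (hB.symmDiff htm)]
      refine integral_congr_ae (Eventually.of_forall (fun x => ?_))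
      simp only [Pi.sub_apply, hF]
      by_cases h1 : x ∈ B <;> by_cases h2 : x ∈ (cylinder J T : Set (I → Bool)) <;>
        simp [h1, h2, Set.mem_symmDiff]
    rw [h1, measureReal_def]
    have h2 := (ENNReal.toReal_lt_toReal (measure_ne_top _ _) ENNReal.ofReal_ne_top).2 ht'
    rwa [ENNReal.toReal_ofReal hδ.le] at h2
  have hh : h ∈ (M : Set (Lp 𝕜 1 ρ)) := by rw [htop]; trivial
  rw [hM, Submodule.topologicalClosure_coe, Metric.mem_closure_iff] at hh
  obtain ⟨_, ⟨F, rfl⟩, hF⟩ := hh ε hε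
  refine ⟨F, ?_⟩
  rwa [dist_eq_norm] at hF

/-! ### The embedding is isometric -/

lemma CKB_le_norm {K : Set (I → Bool)} [CompactSpace K] (ρ : Measure (I → Bool))
    [IsFiniteMeasure ρ] (D : Lp 𝕜 1 ρ →L[𝕜] (C(K, 𝕜) →L[𝕜] 𝕜)) (hD1 : ∀ h, ‖D h‖ ≤ ‖h‖)
    (hD2 : ∀ (h : (I → Bool) → 𝕜), Integrable h ρ → ∀ F : C(I → Bool, 𝕜),
      D (tl ρ h) (F.restrict K) = ∫ x, h x * F x ∂ρ) (h : Lp 𝕜 1 ρ) :
    ‖h‖ ≤ ‖D h‖ := by
  refine le_of_forall_pos_le_add (fun ε₀ hε₀ => ?_)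
  set ε : ℝ := ε₀ / (2 + ρ.real Set.univ) with hε
  have hden : 0 < 2 + ρ.real Set.univ := by positivity
  have hεpos : 0 < ε := by positivity
  -- approximation by a continuous function
  obtain ⟨g, hg⟩ := CKB_dense ρ h hεpos
  have hgint : Integrable (g : (I → Bool) → 𝕜) ρ := CKB_int g
  set g' : Lp 𝕜 1 ρ := tl ρ (g : (I → Bool) → 𝕜) with hg'
  -- the test function
  let f : C(I → Bool, 𝕜) := ⟨fun x => (starRingEnd 𝕜) (g x) * (((‖g x‖ + ε)⁻¹ : ℝ) : 𝕜), by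
    refine (RCLike.continuous_conj.comp g.continuous).mul (RCLike.continuous_ofReal.comp ?_)
    refine (g.continuous.norm.add continuous_const).inv₀ (fun x => ?_)
    exact (by positivity : (0 : ℝ) < ‖g x‖ + ε).ne'⟩
  have hf1 : ‖f.restrict K‖ ≤ 1 := by
    rw [ContinuousMap.norm_le _ zero_le_one]
    intro x
    have h0 : 0 < ‖g x‖ + ε := by positivity
    show ‖(starRingEnd 𝕜) (g x) * (((‖g x‖ + ε)⁻¹ : ℝ) : 𝕜)‖ ≤ 1
    rw [norm_mul, RCLike.norm_conj, RCLike.norm_ofReal, abs_of_pos (by positivity),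
      mul_inv_le_iff₀ h0]
    linarith
  have hgf : ∀ x, g x * f x = ((‖g x‖ ^ 2 * (‖g x‖ + ε)⁻¹ : ℝ) : 𝕜) := by
    intro x
    show g x * ((starRingEnd 𝕜) (g x) * (((‖g x‖ + ε)⁻¹ : ℝ) : 𝕜)) = _
    rw [← mul_assoc, RCLike.mul_conj]
    push_cast
    rfl
  have h1 : ‖g'‖ - ε * ρ.real Set.univ ≤ ‖D g' (f.restrict K)‖ := by
    have h2 : D g' (f.restrict K) = ((∫ x, ‖g x‖ ^ 2 * (‖g x‖ + ε)⁻¹ ∂ρ : ℝ) : 𝕜) := by
      rw [hg', hD2 _ hgint]
      simp_rw [hgf]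
      exact integral_ofReal
    have h3 : ‖g'‖ - ε * ρ.real Set.univ = ∫ x, (‖g x‖ - ε) ∂ρ := by
      rw [integral_sub hgint.norm (integrable_const _), hg', norm_tl hgint]
      simp [mul_comm]
    rw [h2, RCLike.norm_ofReal, h3]
    refine le_trans ?_ (le_abs_self _)
    have h5 : Continuous (fun x => ‖g x‖ ^ 2 * (‖g x‖ + ε)⁻¹) := by
      refine (g.continuous.norm.pow 2).mul ?_
      refine (g.continuous.norm.add continuous_const).inv₀ (fun x => ?_)
      exact (by positivity : (0 : ℝ) < ‖g x‖ + ε).ne'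
    have h4 : Integrable (fun x => ‖g x‖ ^ 2 * (‖g x‖ + ε)⁻¹) ρ :=
      CKB_int (𝕜 := ℝ) ⟨_, h5⟩
    refine integral_mono (hgint.norm.sub (integrable_const _)) h4 (fun x => ?_)
    have h0 : 0 < ‖g x‖ + ε := by positivity
    simp only
    rw [← div_eq_mul_inv, le_div_iff₀ h0]
    nlinarith [norm_nonneg (g x)]
  have h2 : ‖D g' (f.restrict K)‖ ≤ ‖D h‖ + ε := by
    have h3 : D g' (f.restrict K) = D h (f.restrict K) - D (h - g') (f.restrict K) := by
      rw [map_sub, _root_.sub_apply]; ring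
    rw [h3]
    refine (norm_sub_le _ _).trans (add_le_add ?_ ?_)
    · calc ‖D h (f.restrict K)‖ ≤ ‖D h‖ * ‖f.restrict K‖ := (D h).le_opNorm _
        _ ≤ ‖D h‖ * 1 := mul_le_mul_of_nonneg_left hf1 (norm_nonneg _)
        _ = _ := mul_one _
    · calc ‖D (h - g') (f.restrict K)‖ ≤ ‖D (h - g')‖ * ‖f.restrict K‖ :=
            (D (h - g')).le_opNorm _
        _ ≤ ‖D (h - g')‖ * 1 := mul_le_mul_of_nonneg_left hf1 (norm_nonneg _)
        _ = ‖D (h - g')‖ := mul_one _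
        _ ≤ ‖h - g'‖ := hD1 _
        _ ≤ ε := hg.le
  have h3 : ‖h‖ ≤ ‖g'‖ + ε := by
    have h4 : h = g' + (h - g') := by abel
    calc ‖h‖ = ‖g' + (h - g')‖ := by rw [← h4]
      _ ≤ ‖g'‖ + ‖h - g'‖ := norm_add_le _ _
      _ ≤ _ := by linarith
  have h4 : ε * (2 + ρ.real Set.univ) = ε₀ := by
    rw [hε]; field_simp
  nlinarith

/-- the isometric embedding of `L¹(ρ)` in the dual of `C(K)` -/
lemma CKB_exists_iso {K : Set (I → Bool)} [CompactSpace K] (hK : IsClosed K)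
    (ρ : Measure (I → Bool)) [IsFiniteMeasure ρ] (hρ : CarriedBy K ρ) :
    ∃ D : Lp 𝕜 1 ρ →ₗᵢ[𝕜] (C(K, 𝕜) →L[𝕜] 𝕜),
      ∀ (h : (I → Bool) → 𝕜), Integrable h ρ → ∀ F : C(I → Bool, 𝕜),
        D (tl ρ h) (F.restrict K) = ∫ x, h x * F x ∂ρ := by
  obtain ⟨D, hD1, hD2⟩ := CKB_exists_dens (𝕜 := 𝕜) hK ρ hρ
  exact ⟨⟨(D : Lp 𝕜 1 ρ →ₗ[𝕜] (C(K, 𝕜) →L[𝕜] 𝕜)), fun h =>
    le_antisymm (hD1 h) (CKB_le_norm ρ D hD1 hD2 h)⟩, hD2⟩

lemma CKB_ext_fun {K : Set (I → Bool)} [CompactSpace K] (hK : IsClosed K)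
    {Φ Ψ : C(K, 𝕜) →L[𝕜] 𝕜} (h : ∀ F : C(I → Bool, 𝕜), Φ (F.restrict K) = Ψ (F.restrict K)) :
    Φ = Ψ := by
  ext f
  obtain ⟨F, rfl⟩ := CKB_exists_ext hK f
  exact h F

/-! ### Gluing -/

/-- Gluing two densities of mutually singular measures. -/
lemma CKB_glue {ρ₁ ρ₂ : Measure (I → Bool)} (h : ρ₁ ⟂ₘ ρ₂) {h₁ h₂ : (I → Bool) → 𝕜}
    (i1 : Integrable h₁ ρ₁) (i2 : Integrable h₂ ρ₂) :
    ∃ g : (I → Bool) → 𝕜, Integrable g (ρ₁ + ρ₂) ∧
      (∫ x, ‖g x‖ ∂(ρ₁ + ρ₂) = ∫ x, ‖h₁ x‖ ∂ρ₁ + ∫ x, ‖h₂ x‖ ∂ρ₂) ∧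
      ∀ F : C(I → Bool, 𝕜), ∫ x, g x * F x ∂(ρ₁ + ρ₂) =
        ∫ x, h₁ x * F x ∂ρ₁ + ∫ x, h₂ x * F x ∂ρ₂ := by
  obtain ⟨N, hN, hN1, hN2⟩ := h
  -- `ρ₁ N = 0`, `ρ₂ Nᶜ = 0`
  have a1 : ∀ᵐ x ∂ρ₁, x ∉ N := measure_eq_zero_iff_ae_notMem.1 hN1
  have a2 : ∀ᵐ x ∂ρ₂, x ∈ N := by
    filter_upwards [measure_eq_zero_iff_ae_notMem.1 hN2] with x hx
    by_contra h'
    exact hx h'
  set F : (I → Bool) → 𝕜 := fun x => if x ∈ N then h₂ x else h₁ x with hF
  have e1 : F =ᵐ[ρ₁] h₁ := by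
    filter_upwards [a1] with x hx
    simp only [hF, if_neg hx]
  have e2 : F =ᵐ[ρ₂] h₂ := by
    filter_upwards [a2] with x hx
    simp only [hF, if_pos hx]
  have j1 : Integrable F ρ₁ := i1.congr e1.symm
  have j2 : Integrable F ρ₂ := i2.congr e2.symm
  refine ⟨F, j1.add_measure j2, ?_, fun f => ?_⟩
  · rw [integral_add_measure j1.norm j2.norm]
    congr 1
    · exact integral_congr_ae (e1.mono (fun x hx => by simp only [hx]))
    · exact integral_congr_ae (e2.mono (fun x hx => by simp only [hx]))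
  · rw [integral_add_measure (CKB_int_mul j1 f) (CKB_int_mul j2 f)]
    congr 1
    · exact integral_congr_ae (e1.mono (fun x hx => by simp only [hx]))
    · exact integral_congr_ae (e2.mono (fun x hx => by simp only [hx]))

lemma CKB_glue_finset {K : Set (I → Bool)} {ι : Type*} (s : Finset ι)
    (ν : ι → Measure (I → Bool)) (hfin : ∀ a, IsFiniteMeasure (ν a))
    (hK : ∀ a, CarriedBy K (ν a))
    (hs : ∀ a ∈ s, ∀ b ∈ s, a ≠ b → ν a ⟂ₘ ν b) (h : ∀ _ : ι, (I → Bool) → 𝕜)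
    (hi : ∀ a, Integrable (h a) (ν a)) :
    IsFiniteMeasure (∑ a ∈ s, ν a) ∧ CarriedBy K (∑ a ∈ s, ν a) ∧
    (∃ g : (I → Bool) → 𝕜, Integrable g (∑ a ∈ s, ν a) ∧
      (∫ x, ‖g x‖ ∂(∑ a ∈ s, ν a) = ∑ a ∈ s, ∫ x, ‖h a x‖ ∂(ν a)) ∧
      ∀ F : C(I → Bool, 𝕜), ∫ x, g x * F x ∂(∑ a ∈ s, ν a) = ∑ a ∈ s, ∫ x, h a x * F x ∂(ν a)) ∧
      ∀ ρ : Measure (I → Bool), (∀ a ∈ s, ρ ⟂ₘ ν a) → ρ ⟂ₘ ∑ a ∈ s, ν a := by
  induction s using Finset.induction_on with
  | empty =>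
    refine ⟨by rw [Finset.sum_empty]; infer_instance, ?_,
      ⟨0, integrable_zero _ _ _, ?_, fun F => ?_⟩, fun ρ _ => ?_⟩
    · rw [Finset.sum_empty]
      intro C _ _
      rfl
    · simp
    · simp
    · rw [Finset.sum_empty]
      exact Measure.MutuallySingular.zero_right
  | @insert a s ha ih =>
    obtain ⟨ih1, ihK, ⟨g, hg1, hg2, hg3⟩, ih3⟩ := ih (fun b hb c hc hbc =>
      hs b (Finset.mem_insert_of_mem hb) c (Finset.mem_insert_of_mem hc) hbc)
    have hfa := hfin a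
    rw [Finset.sum_insert ha]
    refine ⟨inferInstance, ?_, ?_, fun ρ hρ => ?_⟩
    · intro C hC hCK
      rw [Measure.add_apply, hK a C hC hCK, ihK C hC hCK, add_zero]
    · have hsing : ν a ⟂ₘ ∑ b ∈ s, ν b := ih3 (ν a) (fun b hb =>
        hs a (Finset.mem_insert_self a s) b (Finset.mem_insert_of_mem hb)
          (fun hab => ha (hab ▸ hb)))
      obtain ⟨g', hg1', hg2', hg3'⟩ := CKB_glue hsing (hi a) hg1
      refine ⟨g', hg1', ?_, fun F => ?_⟩
      · rw [hg2', hg2, Finset.sum_insert ha]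
      · rw [hg3', hg3, Finset.sum_insert ha]
    · rw [Measure.MutuallySingular.add_right_iff]
      exact ⟨hρ a (Finset.mem_insert_self a s), ih3 ρ (fun b hb =>
        hρ b (Finset.mem_insert_of_mem hb))⟩

lemma CKB_norm_sum {K : Set (I → Bool)} [CompactSpace K] (hK : IsClosed K) {ι : Type*}
    (s : Finset ι) (ν : ι → Measure (I → Bool)) (hfin : ∀ a, IsFiniteMeasure (ν a))
    (hν : ∀ a, CarriedBy K (ν a))
    (hs : ∀ a ∈ s, ∀ b ∈ s, a ≠ b → ν a ⟂ₘ ν b)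
    (D : ∀ a, Lp 𝕜 1 (ν a) →ₗᵢ[𝕜] (C(K, 𝕜) →L[𝕜] 𝕜))
    (hD : ∀ a, ∀ (h : (I → Bool) → 𝕜), Integrable h (ν a) → ∀ F : C(I → Bool, 𝕜),
        D a (tl (ν a) h) (F.restrict K) = ∫ x, h x * F x ∂(ν a))
    (h : ∀ a, Lp 𝕜 1 (ν a)) :
    ‖∑ a ∈ s, D a (h a)‖ = ∑ a ∈ s, ‖h a‖ := by
  obtain ⟨h1, h2, ⟨g, hg1, hg2, hg3⟩, -⟩ := CKB_glue_finset (K := K) s ν hfin hν hs
    (fun a => (h a : (I → Bool) → 𝕜)) (fun a => L1.integrable_coeFn (h a))
  obtain ⟨D', hD'⟩ := CKB_exists_iso (𝕜 := 𝕜) hK (∑ a ∈ s, ν a) h2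
  have h3 : ∑ a ∈ s, D a (h a) = D' (tl _ g) := by
    refine CKB_ext_fun hK (fun F => ?_)
    rw [hD' g hg1 F, hg3, _root_.sum_apply]
    refine Finset.sum_congr rfl (fun a _ => ?_)
    rw [← hD a _ (L1.integrable_coeFn (h a)) F, tl_coeFn]
  rw [h3, D'.norm_map, norm_tl hg1, hg2]
  refine Finset.sum_congr rfl (fun a _ => ?_)
  rw [L1.norm_eq_integral_norm]

/-! ### The maximal family -/

/-- singular families of probability measures carried by `K` -/
def CKB_Fam (K : Set (I → Bool)) (𝓜 : Set (Measure (I → Bool))) : Prop :=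
  (∀ ν ∈ 𝓜, IsProbabilityMeasure ν ∧ CarriedBy K ν) ∧ 𝓜.Pairwise (fun ν ν' => ν ⟂ₘ ν')

lemma CKB_exists_maximal (K : Set (I → Bool)) (𝓒 : Set (Measure (I → Bool)))
    (h𝓒 : CKB_Fam K 𝓒) :
    ∃ 𝓜, 𝓒 ⊆ 𝓜 ∧ CKB_Fam K 𝓜 ∧ ∀ ρ : Measure (I → Bool), IsFiniteMeasure ρ → ρ ≠ 0 →
      CarriedBy K ρ → ∃ ν ∈ 𝓜, ¬ ρ ⟂ₘ ν := by
  obtain ⟨m, hm, hmax⟩ := zorn_subset_nonempty {𝓜 | CKB_Fam K 𝓜} (by
    intro c hc hchain hne
    refine ⟨⋃₀ c, ⟨?_, ?_⟩, fun s hs => Set.subset_sUnion_of_mem hs⟩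
    · rintro A ⟨s, hs, hA⟩
      exact (hc hs).1 A hA
    · rw [Set.pairwise_sUnion hchain.directedOn]
      intro s hs
      exact (hc hs).2) 𝓒 h𝓒
  refine ⟨m, hm, hmax.prop, fun ρ hρ hρ0 hρK => ?_⟩
  by_contra hcon
  push Not at hcon
  -- normalise
  have hu0 : ρ Set.univ ≠ 0 := by
    rw [Ne, Measure.measure_univ_eq_zero]; exact hρ0
  set ρ' : Measure (I → Bool) := (ρ Set.univ)⁻¹ • ρ with hρ'
  have hp : IsProbabilityMeasure ρ' := ⟨by
    rw [hρ', Measure.smul_apply, smul_eq_mul]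
    exact ENNReal.inv_mul_cancel hu0 (measure_ne_top _ _)⟩
  have hac : ρ' ≪ ρ := by
    rw [hρ']
    exact Measure.smul_absolutelyContinuous
  have hK' : CarriedBy K ρ' := fun C hC hCK => hac (hρK C hC hCK)
  have hsing : ∀ ν ∈ m, ρ' ⟂ₘ ν := fun ν hν =>
    (hcon ν hν).mono_ac hac Measure.AbsolutelyContinuous.rfl
  have h1 : CKB_Fam K (insert ρ' m) := by
    refine ⟨?_, ?_⟩
    · rintro A (rfl | hA)
      · exact ⟨hp, hK'⟩
      · exact hmax.prop.1 A hA
    · refine hmax.prop.2.insert (fun A hA hne => ?_)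
      exact ⟨hsing A hA, (hsing A hA).symm⟩
  have h2 : ρ' ∈ m := hmax.le_of_ge h1 (Set.subset_insert _ _) (Set.mem_insert _ _)
  have h3 : ρ' = 0 := (Measure.MutuallySingular.self_iff ρ').1 (hsing ρ' h2)
  have h4 := hp.measure_univ
  rw [h3] at h4
  simp at h4

lemma CKB_part {ρ ν : Measure (I → Bool)} [IsFiniteMeasure ρ] [IsFiniteMeasure ν]
    {B : Set (I → Bool)} (hB : MeasurableSet B) (h : ¬ ρ.restrict B ⟂ₘ ν) :
    ∃ A ⊆ B, MeasurableSet A ∧ ρ A ≠ 0 ∧ ∀ f : (I → Bool) → 𝕜, Integrable f ρ →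
      ∃ g : (I → Bool) → 𝕜, Integrable g ν ∧ ∀ φ : C(I → Bool, 𝕜),
        ∫ x, A.indicator f x * φ x ∂ρ = ∫ x, g x * φ x ∂ν := by
  have hLD := Measure.haveLebesgueDecomposition_of_sigmaFinite (ρ.restrict B) ν
  obtain ⟨hm, hsing, hdec⟩ := Measure.haveLebesgueDecomposition_spec (ρ.restrict B) ν
  set σ := (ρ.restrict B).singularPart ν with hσ
  set q := (ρ.restrict B).rnDeriv ν with hq
  obtain ⟨N, hN, hN1, hN2⟩ := hsing
  -- `σ N = 0`, `ν Nᶜ = 0`
  have hqN : (ν.withDensity q) Nᶜ = 0 := by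
    rw [withDensity_apply _ hN.compl]
    exact setLIntegral_measure_zero _ _ hN2
  have hres : (ρ.restrict (N ∩ B)) = ν.withDensity q := by
    ext E hE
    have h1 : ρ.restrict (N ∩ B) E = (ρ.restrict B) (E ∩ N) := by
      rw [Measure.restrict_apply hE, Measure.restrict_apply (hE.inter hN), Set.inter_assoc]
    rw [h1, hdec, Measure.add_apply]
    have h2 : σ (E ∩ N) = 0 := measure_mono_null Set.inter_subset_right hN1
    have h3 : (ν.withDensity q) (E ∩ N) = (ν.withDensity q) E := by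
      refine le_antisymm (measure_mono Set.inter_subset_left) ?_
      calc (ν.withDensity q) E ≤ (ν.withDensity q) ((E ∩ N) ∪ Nᶜ) := by
            refine measure_mono (fun x hx => ?_)
            by_cases hxN : x ∈ N
            · exact Or.inl ⟨hx, hxN⟩
            · exact Or.inr hxN
        _ ≤ (ν.withDensity q) (E ∩ N) + (ν.withDensity q) Nᶜ := measure_union_le _ _
        _ = _ := by rw [hqN, add_zero]
    rw [h2, h3, zero_add]
  have hAm : MeasurableSet (N ∩ B) := hN.inter hB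
  refine ⟨N ∩ B, Set.inter_subset_right, hAm, ?_, fun f hf => ?_⟩
  · intro h0
    apply h
    have h4 : ν.withDensity q = 0 := by
      rw [← hres, Measure.restrict_eq_zero]; exact h0
    rw [hdec, h4, add_zero]
    exact ⟨N, hN, hN1, hN2⟩
  · have hqtop : ∀ᵐ x ∂ν, q x < ∞ := Measure.rnDeriv_lt_top _ _
    have hfr : Integrable f (ν.withDensity q) := by
      rw [← hres]; exact hf.restrict
    have hg : Integrable (fun x => (q x).toReal • f x) ν :=
      (integrable_withDensity_iff_integrable_smul' hm hqtop).1 hfr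
    refine ⟨fun x => (q x).toReal • f x, hg, fun φ => ?_⟩
    have h5 : ∫ x, (N ∩ B).indicator f x * φ x ∂ρ = ∫ x in N ∩ B, f x * φ x ∂ρ := by
      rw [← integral_indicator hAm]
      refine integral_congr_ae (Eventually.of_forall (fun x => ?_))
      by_cases hx : x ∈ N ∩ B
      · simp only [Set.indicator_of_mem hx]
      · simp only [Set.indicator_of_notMem hx, zero_mul]
    rw [h5, hres, integral_withDensity_eq_integral_toReal_smul hm hqtop]
    refine integral_congr_ae (Eventually.of_forall (fun x => ?_))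
    simp only [smul_mul_assoc]

end CKB

/-- CKB: the dual of `C(K)` is an `ℓ¹`-sum, from the Riesz representation (CKA). -/
theorem st_CKB.{u, v} (hCKA : ST_CKA.{u, v}) : ST_CKB.{u, v} := by
  intro 𝕜 _ I K _ ν₀ hν₀ hν₀K
  have hK : IsClosed K := (isCompact_iff_compactSpace.2 inferInstance).isClosed
  obtain ⟨M, hM0, hM, hmax⟩ := CKB_exists_maximal K {ν₀} ⟨by
    intro ν hν
    rw [Set.mem_singleton_iff.1 hν]
    exact ⟨hν₀, hν₀K⟩, Set.pairwise_singleton _ _⟩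
  have hp : ∀ m : M, IsProbabilityMeasure m.1 := fun m => (hM.1 m.1 m.2).1
  have hfin : ∀ m : M, IsFiniteMeasure m.1 := fun m => inferInstance
  have hc : ∀ m : M, CarriedBy K m.1 := fun m => (hM.1 m.1 m.2).2
  choose D hD using fun m : M => CKB_exists_iso (𝕜 := 𝕜) hK m.1 (hc m)
  refine ⟨M, hM0 rfl, hM.1, hM.2, D, fun S x => ?_, fun N hN hDN => ?_⟩
  · exact CKB_norm_sum hK S (fun m : M => m.1) hfin hc
      (fun a _ b _ hab => hM.2 a.2 b.2 (fun h => hab (Subtype.ext h))) D hD x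
  · rw [eq_top_iff]
    intro Φ _
    obtain ⟨ρ, hρ, hρK, h, hh, hΦ⟩ := hCKA 𝕜 I K Φ
    obtain ⟨D', hD'⟩ := CKB_exists_iso (𝕜 := 𝕜) hK ρ hρK
    have hΦ' : Φ = D' (tl ρ h) := by
      refine CKB_ext_fun hK (fun F => ?_)
      rw [hΦ, hD' h hh]
    have htop : N.comap (D'.toLinearMap) = ⊤ := by
      refine eq_top_of_family {A | MeasurableSet A ∧ ∀ f : (I → Bool) → 𝕜, Integrable f ρ →
        tl ρ (A.indicator f) ∈ N.comap (D'.toLinearMap)}
        (fun A hA => hA.1) ?_ _ (hN.preimage D'.continuous) (fun A hA => hA.2)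
      intro B hB hB0 _
      have hne : ρ.restrict B ≠ 0 := by
        rw [Ne, Measure.restrict_eq_zero]; exact hB0.ne'
      obtain ⟨ν, hν, hsing⟩ := hmax (ρ.restrict B) inferInstance hne
        (fun C hC hCK => Measure.absolutelyContinuous_of_le Measure.restrict_le_self
          (hρK C hC hCK))
      have hνfin : IsFiniteMeasure ν := hfin ⟨ν, hν⟩
      obtain ⟨A, hAB, hA, hA0, hA'⟩ := CKB_part (𝕜 := 𝕜) hB hsing
      refine ⟨A, ⟨hA, fun f hf => ?_⟩, by rwa [Set.inter_eq_left.2 hAB]⟩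
      obtain ⟨g, hg, hg'⟩ := hA' f hf
      show D' (tl ρ (A.indicator f)) ∈ N
      have h1 : D' (tl ρ (A.indicator f)) = D ⟨ν, hν⟩ (tl ν g) := by
        refine CKB_ext_fun hK (fun F => ?_)
        rw [hD' _ (hf.indicator hA), hg', hD ⟨ν, hν⟩ g hg]
      rw [h1]
      exact hDN _ _
    have h3 : tl ρ h ∈ N.comap (D'.toLinearMap) := by
      rw [htop]; trivial
    rw [hΦ']
    exact h3

end DualL1
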