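import Pool.Agent.Helper60.L1Full.Stmts

/-! Hajnal's free set theorem for countable set mappings on a set of singular size
(module FREE of the project L1F, MP_3844f5_an). -/

namespace DualL1

open Cardinal Set

universe u

/-- a colouring of a large part of `X` -/
theorem FREE_color (I : Type u) (X : Set I) (μ ρ : Cardinal.{u}) (R : Type u) [LinearOrder R]
    (hR : #R = ρ) (bdd : ∀ s : Set R, #s < ρ → ∃ b, ∀ a ∈ s, a < b) (hX : μ ≤ #X)
    (hμ : μ.IsRegular) (hρ : ℵ₀ ≤ ρ) (hρμ : ρ < μ) (D : I → Set R) (hD : ∀ x, #(D x) < ρ) :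
    ∃ (P : I → Option R) (β : R), (∀ ν, μ ≤ #{x : I | x ∈ X ∧ P x = some ν}) ∧
      ∀ x ∈ X, P x ≠ none → ∀ ν ∈ D x, ν < β := by
  classical
  choose b hb using fun x => bdd (D x) (hD x)
  obtain ⟨β, hβ⟩ := Cardinal.infinite_pigeonhole_card (fun x : X => b x.1) μ hX hμ.aleph0_le
    (by rw [hμ.cof_ord, hR]; exact hρμ)
  obtain ⟨T, hT⟩ := Cardinal.le_mk_iff_exists_set.1 hβ
  have hcard : #(R × T) = #T := by
    rw [Cardinal.mk_prod, Cardinal.lift_id, Cardinal.lift_id, hT, hR]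
    exact Cardinal.mul_eq_right hμ.aleph0_le hρμ.le (by
      intro h
      rw [h] at hρ
      exact absurd hρ (not_le.2 Cardinal.aleph0_pos))
  obtain ⟨e⟩ := Cardinal.eq.1 hcard
  -- `T : Set ((fun x : X => b x.1) ⁻¹' {β})`
  let j : T → I := fun t => t.1.1.1
  have hj : Function.Injective j := fun s t h => Subtype.ext (Subtype.ext (Subtype.ext h))
  let P : I → Option R := fun x => if h : ∃ t, j t = x then some (e.symm h.choose).1 else none
  have hP : ∀ t, P (j t) = some (e.symm t).1 := by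
    intro t
    have h : ∃ t', j t' = j t := ⟨t, rfl⟩
    simp only [P, dif_pos h]
    rw [hj h.choose_spec]
  refine ⟨P, β, ?_, ?_⟩
  · intro ν
    let f : T → {x : I | x ∈ X ∧ P x = some ν} := fun t => ⟨j (e (ν, t)), (e (ν, t)).1.1.2, by
      rw [hP, Equiv.symm_apply_apply]⟩
    have hf : Function.Injective f := by
      intro s t h
      have h1 : j (e (ν, s)) = j (e (ν, t)) := by
        have h' := congrArg (fun z => z.1) h
        exact h'
      have h2 := e.injective (hj h1)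
      exact (Prod.mk.inj h2).2
    rw [← hT]
    exact Cardinal.mk_le_of_injective hf
  · intro x hx hPx ν hν
    by_cases h : ∃ t, j t = x
    · obtain ⟨t, rfl⟩ := h
      have h1 : b (j t) = β := t.1.2
      rw [← h1]
      exact hb _ ν hν
    · exact absurd (by simp only [P, dif_neg h]) hPx

/-- the singular case -/
theorem FREE_sing (h0 : ST_FREER.{u}) (I : Type u) (h1 : ℵ₁ < #I) (hns : ¬ (#I).IsRegular)
    (S : I → Set I) (hS : ∀ i, (S i).Countable) :
    ∃ Γ : Set I, #Γ = #I ∧ ∀ i ∈ Γ, ∀ j ∈ Γ, i ≠ j → j ∉ S i := by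
  classical
  set κ : Cardinal.{u} := #I with hκ
  have haκ : ℵ₀ ≤ κ := (Cardinal.aleph0_le_aleph 1).trans h1.le
  -- `κ` is a limit cardinal
  have hlim : ∀ c : Cardinal.{u}, ℵ₀ ≤ c → c < κ → Order.succ c < κ := by
    intro c hc hcκ
    refine lt_of_le_of_ne (Order.succ_le_of_lt hcκ) ?_
    intro h
    exact hns (by rw [← h]; exact Cardinal.isRegular_succ hc)
  have hcofκ : κ.ord.cof < κ := by
    refine lt_of_le_of_ne (Ordinal.cof_ord_le κ) ?_
    intro h
    exact hns ⟨haκ, h.ge⟩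
  have hcof0 : ℵ₀ ≤ κ.ord.cof := (Cardinal.isRegular_cof (Cardinal.isSuccLimit_ord haκ)).aleph0_le
  set ρ : Cardinal.{u} := Order.succ (max κ.ord.cof ℵ₁) with hρ
  have hmax : max κ.ord.cof ℵ₁ < κ := max_lt hcofκ h1
  have hρκ : ρ < κ := hlim _ (hcof0.trans (le_max_left _ _)) hmax
  have hρreg : ρ.IsRegular := Cardinal.isRegular_succ (hcof0.trans (le_max_left _ _))
  have hρ1 : ℵ₁ < ρ := lt_of_le_of_lt (le_max_right _ _) (Order.lt_succ _)
  have hρcof : κ.ord.cof < ρ := lt_of_le_of_lt (le_max_left _ _) (Order.lt_succ _)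
  -- a cofinal set
  obtain ⟨s, hs, hsc⟩ := Order.exists_cof_eq (κ.ord.ToType)
  rw [Ordinal.cof_toType] at hsc
  let c : s → Cardinal.{u} := fun i => Order.succ (max #(Iio i.1) ρ)
  have hcκ : ∀ i, c i < κ := fun i =>
    hlim _ (hρreg.aleph0_le.trans (le_max_right _ _))
      (max_lt (Cardinal.mk_Iio_toType_ord_lt i.1) hρκ)
  have hcreg : ∀ i, (c i).IsRegular := fun i =>
    Cardinal.isRegular_succ (hρreg.aleph0_le.trans (le_max_right _ _))
  have hcρ : ∀ i, ρ < c i := fun i => lt_of_le_of_lt (le_max_right _ _) (Order.lt_succ _)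
  have hccof : ∀ θ : Cardinal.{u}, θ < κ → ∃ i, θ < c i := by
    intro θ hθ
    let a : κ.ord.ToType := Ordinal.enum (α := κ.ord.ToType) (· < ·)
      ⟨θ.ord, by rw [Set.mem_Iio, Ordinal.type_toType]; exact Cardinal.ord_lt_ord.2 hθ⟩
    obtain ⟨b, hb, hab⟩ := hs a
    refine ⟨⟨b, hb⟩, ?_⟩
    have ha : #(Iio a) = θ := by
      have h' := Ordinal.card_typein (α := κ.ord.ToType) (r := (· < ·)) a
      rw [Ordinal.typein_enum, Cardinal.card_ord] at h'
      exact h'.symm
    calc θ = #(Iio a) := ha.symm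
      _ ≤ #(Iio b) := Cardinal.mk_le_mk_of_subset (Set.Iio_subset_Iio hab)
      _ ≤ max #(Iio b) ρ := le_max_left _ _
      _ < _ := Order.lt_succ _
  -- colours
  let R : Type u := ρ.ord.ToType
  have hR : #R = ρ := Cardinal.mk_ord_toType ρ
  have bdd : ∀ s : Set R, #s < ρ → ∃ b, ∀ a ∈ s, a < b := by
    intro s hs
    by_contra! h
    have hcof : IsCofinal s := h
    have := Order.cof_le hcof
    rw [Ordinal.cof_toType, hρreg.cof_ord] at this
    exact absurd hs (not_lt.2 this)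
  -- the free sets
  have hX0 : ∀ i : s, ∃ X : Set I, #X = c i ∧ ∀ x ∈ X, ∀ y ∈ X, x ≠ y → y ∉ S x := by
    intro i
    obtain ⟨W, hW⟩ := Cardinal.le_mk_iff_exists_set.1 (hcκ i).le
    obtain ⟨Γ, hΓ1, hΓ2⟩ := h0 W (by rw [hW]; exact hρ1.trans (hcρ i))
      (by rw [hW]; exact hcreg i) (fun x => {y | y.1 ∈ S x.1})
      (fun x => (hS x.1).preimage Subtype.val_injective)
    refine ⟨Subtype.val '' Γ, ?_, ?_⟩
    · rw [Cardinal.mk_image_eq Subtype.val_injective, hΓ1, hW]
    · rintro _ ⟨x, hx, rfl⟩ _ ⟨y, hy, rfl⟩ hxy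
      exact hΓ2 x hx y hy (fun h => hxy (by rw [h]))
  choose X₀' hX₀'1 hX₀'2 using hX0
  -- indexed by cardinals
  let X₀ : Cardinal.{u} → Set I := fun θ => if h : ∃ i, c i = θ then X₀' h.choose else ∅
  have hX₀1 : ∀ i, #(X₀ (c i)) = c i := by
    intro i
    have h : ∃ k, c k = c i := ⟨i, rfl⟩
    simp only [X₀, dif_pos h]
    rw [hX₀'1, h.choose_spec]
  have hX₀2 : ∀ θ, ∀ x ∈ X₀ θ, ∀ y ∈ X₀ θ, x ≠ y → y ∉ S x := by
    intro θ x hx y hy
    by_cases h : ∃ i, c i = θ
    · simp only [X₀, dif_pos h] at hx hy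
      exact hX₀'2 _ x hx y hy
    · simp only [X₀, dif_neg h] at hx
      exact hx.elim
  let rem : Cardinal.{u} → Set I := fun θ => ⋃ k : {k : s // c k < θ}, ⋃ x : X₀ (c k.1), S x.1
  let X : Cardinal.{u} → Set I := fun θ => X₀ θ \ rem θ
  have hrem : ∀ i, #(rem (c i)) < c i := by
    intro i
    refine lt_of_le_of_lt (Cardinal.mk_iUnion_le_sum_mk) ?_
    apply Cardinal.sum_lt_of_isRegular (hcreg i)
    · exact lt_of_le_of_lt (Cardinal.mk_subtype_le _) (by
        rw [hsc]; exact hρcof.trans (hcρ i))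
    · intro k
      refine lt_of_le_of_lt (Cardinal.mk_iUnion_le_sum_mk) ?_
      refine lt_of_le_of_lt (Cardinal.sum_le_sum _ (fun _ => ℵ₀)
        (fun x => (hS x.1).le_aleph0)) ?_
      rw [Cardinal.sum_const', hX₀1]
      exact Cardinal.mul_lt_of_lt (hcreg i).aleph0_le k.2
        (lt_of_le_of_lt hρreg.aleph0_le (hcρ i))
  have hX1 : ∀ i, c i ≤ #(X (c i)) := by
    intro i
    by_contra! h
    have h2 : #(X₀ (c i)) ≤ #(X (c i)) + #(rem (c i)) := by
      refine (Cardinal.mk_le_mk_of_subset ?_).trans (Cardinal.mk_union_le _ _)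
      intro x hx
      by_cases hr : x ∈ rem (c i)
      · exact Or.inr hr
      · exact Or.inl ⟨hx, hr⟩
    rw [hX₀1] at h2
    exact absurd h2 (not_le.2 (Cardinal.add_lt_of_lt (hcreg i).aleph0_le h (hrem i)))
  have hX2 : ∀ i k, c k < c i → ∀ x ∈ X (c k), ∀ y ∈ X (c i), y ∉ S x := by
    intro i k hki x hx y hy hyx
    apply hy.2
    simp only [rem, Set.mem_iUnion]
    exact ⟨⟨k, hki⟩, ⟨x, hx.1⟩, hyx⟩
  -- the recursion
  let D : ∀ θ : Cardinal.{u}, (∀ η : Cardinal.{u}, η < θ → (I → Option R)) → I → Set R :=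
    fun θ prev x => ⋃ k : {k : s // c k < θ}, ⋃ y : S x, {ν | prev (c k.1) k.2 y.1 = some ν}
  have hD : ∀ θ prev x, #(D θ prev x) < ρ := by
    intro θ prev x
    refine lt_of_le_of_lt (Cardinal.mk_iUnion_le_sum_mk) ?_
    apply Cardinal.sum_lt_of_isRegular hρreg
    · exact lt_of_le_of_lt (Cardinal.mk_subtype_le _) (by rw [hsc]; exact hρcof)
    · intro k
      refine lt_of_le_of_lt (Cardinal.mk_iUnion_le_sum_mk) ?_
      apply Cardinal.sum_lt_of_isRegular hρreg
      · exact lt_of_le_of_lt (hS x).le_aleph0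
          (lt_of_lt_of_le (Cardinal.aleph0_lt_aleph_one) hρ1.le)
      · intro y
        refine lt_of_le_of_lt ?_ (lt_of_lt_of_le Cardinal.one_lt_aleph0 hρreg.aleph0_le)
        rw [Cardinal.le_one_iff_subsingleton]
        constructor
        rintro ⟨a, ha⟩ ⟨b, hb⟩
        have h : some a = some b := by
          rw [← (show prev (c k.1) k.2 y.1 = some a from ha)]
          exact hb
        exact Subtype.ext (Option.some.inj h)
  let good : ∀ θ : Cardinal.{u}, (∀ η : Cardinal.{u}, η < θ → (I → Option R)) →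
      (I → Option R) → R → Prop := fun θ prev P β =>
    (∀ ν, θ ≤ #{x : I | x ∈ X θ ∧ P x = some ν}) ∧
      ∀ x ∈ X θ, P x ≠ none → ∀ ν ∈ D θ prev x, ν < β
  let step : ∀ θ : Cardinal.{u}, (∀ η : Cardinal.{u}, η < θ → (I → Option R)) →
      (I → Option R) := fun θ prev =>
    if h : ∃ P : I → Option R, ∃ β, good θ prev P β then h.choose else fun _ => none
  let P : Cardinal.{u} → I → Option R := (Cardinal.lt_wf).fix step
  have hPeq : ∀ θ, P θ = step θ (fun η _ => P η) := fun θ => WellFounded.fix_eq _ _ _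
  have hP : ∀ i, ∃ β, good (c i) (fun η _ => P η) (P (c i)) β := by
    intro i
    have h : ∃ P' : I → Option R, ∃ β, good (c i) (fun η _ => P η) P' β :=
      FREE_color I (X (c i)) (c i) ρ R hR bdd (hX1 i) (hcreg i) hρreg.aleph0_le (hcρ i)
        (D (c i) (fun η _ => P η)) (hD (c i) (fun η _ => P η))
    have h2 : P (c i) = h.choose := by
      rw [hPeq]
      simp only [step, dif_pos h]
    rw [h2]
    exact h.choose_spec
  choose β hβ using hP
  obtain ⟨b, hb⟩ := bdd (Set.range β) (lt_of_le_of_lt Cardinal.mk_range_le (by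
    rw [hsc]; exact hρcof))
  refine ⟨{x | ∃ i, x ∈ X (c i) ∧ P (c i) x = some b}, ?_, ?_⟩
  · apply le_antisymm
    · exact Cardinal.mk_set_le _
    · by_contra! h
      obtain ⟨i, hi⟩ := hccof _ h
      have h3 := (hβ i).1 b
      have h4 : #{x : I | x ∈ X (c i) ∧ P (c i) x = some b} ≤
          #{x : I | ∃ i, x ∈ X (c i) ∧ P (c i) x = some b} :=
        Cardinal.mk_le_mk_of_subset (fun x hx => ⟨i, hx⟩)
      exact absurd hi (not_lt.2 (h3.trans h4))
  · rintro x ⟨i, hxi, hPx⟩ y ⟨k, hyk, hPy⟩ hxy hyx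
    rcases lt_trichotomy (c i) (c k) with hlt | heq | hgt
    · exact hX2 k i hlt x hxi y hyk hyx
    · rw [← heq] at hyk
      exact hX₀2 _ x hxi.1 y hyk.1 hxy hyx
    · have h5 := (hβ i).2 x hxi (by rw [hPx]; exact Option.some_ne_none b) b (by
        simp only [D, Set.mem_iUnion]
        exact ⟨⟨k, hgt⟩, ⟨y, hyx⟩, hPy⟩)
      exact absurd (hb (β i) ⟨i, rfl⟩) (not_lt.2 h5.le)

/-- FREE: Hajnal's free set theorem for countable set mappings, from the regular case. -/
theorem st_FREE (h0 : ST_FREER.{u}) : ST_FREE.{u} := by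
  intro I h1 S hS
  by_cases hr : (#I).IsRegular
  · exact h0 I h1 hr S hS
  · exact FREE_sing h0 I h1 hr S hS

end DualL1
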